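import Mathlib
import Pool.Agent.Helper69.MF.StA

/-! Project MF, module BAD: at the regular points of a minimizer the rotation field is tangent or
normal. -/

set_option autoImplicit false

namespace Pool.Agent.Helper70.MF

open Set Topology Filter MeasureTheory
open Pool.Agent.Helper31.CY Pool.Agent.Helper69.MF

theorem dt_add (x y z : E3) : dt (x + y) z = dt x z + dt y z := by
  unfold dt; simp only [PiLp.add_apply]; ring

theorem dt_smul (a : ℝ) (x z : E3) : dt (a • x) z = a * dt x z := by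
  unfold dt; simp only [PiLp.smul_apply, smul_eq_mul]; ring

theorem dt_comm (x y : E3) : dt x y = dt y x := by
  unfold dt; ring

theorem norm_of_dt {x : E3} (h : dt x x = 1) : ‖x‖ = 1 := by
  have h1 : ‖x‖ ^ 2 = 1 := by
    rw [EuclideanSpace.real_norm_sq_eq, Fin.sum_univ_three, ← h]
    unfold dt; ring
  have h0 := norm_nonneg x
  nlinarith [h1, h0]

theorem fold_fr {p τ k : E3} {φ : ℝ} (hON : ON τ (nv φ) k) (hp : dt p (nv φ) = 0) (a v w : ℝ) :
    fold φ (fr p τ (nv φ) k a v w) = fr p τ (nv φ) k a |v| w := by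
  obtain ⟨_, h2, _, h4, _, h6⟩ := hON
  have h6' : dt k (nv φ) = 0 := by rw [dt_comm]; exact h6
  have hd : dt (fr p τ (nv φ) k a v w) (nv φ) = v := by
    unfold fr
    rw [dt_add, dt_add, dt_add, dt_smul, dt_smul, dt_smul, hp, h4, h2, h6']
    ring
  unfold fold
  rw [hd]
  have hv : |v| = v - 2 * min v 0 := by
    rcases le_total v 0 with h | h
    · rw [min_eq_left h, abs_of_nonpos h]; ring
    · rw [min_eq_right h, abs_of_nonneg h]; ring
  rw [hv]
  unfold fr
  rw [sub_smul]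
  abel

theorem circ_closed (r h : ℝ) : IsClosed (circ r h) := by
  have h0 : ∀ i : Fin 3, Continuous (fun x : E3 => x i) := fun i => by fun_prop
  have : circ r h = {x : E3 | x 0 ^ 2 + x 1 ^ 2 = r ^ 2} ∩ {x : E3 | x 2 = h} := rfl
  rw [this]
  exact (isClosed_eq (((h0 0).pow 2).add ((h0 1).pow 2)) continuous_const).inter
    (isClosed_eq (h0 2) continuous_const)

theorem dist_box {p τ n k : E3} (hON : ON τ n k) (a v w : ℝ) :
    ‖fr p τ n k a v w - p‖ ≤ |a| + |v| + |w| := by
  obtain ⟨h1, h2, h3, _, _, _⟩ := hON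
  have e : fr p τ n k a v w - p = a • τ + v • n + w • k := by
    unfold fr; abel
  rw [e]
  refine (norm_add_le _ _).trans ?_
  refine (add_le_add_left (norm_add_le _ _) _).trans ?_
  rw [norm_smul, norm_smul, norm_smul, norm_of_dt h1, norm_of_dt h2, norm_of_dt h3,
    Real.norm_eq_abs, Real.norm_eq_abs, Real.norm_eq_abs, mul_one, mul_one, mul_one]

theorem hBAD : StGPH → StCRS → StPSH → StHTE → StCUT → StFNT → StBAD := by
  intro hGPH hCRS hPSH hHTE hCUT hFNT r0 r1 h h0 h1 hh S 𝒞 hHC hMPS hMnz q hqS hqΓ hreg hrad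
  by_contra hcon
  rw [not_or] at hcon
  obtain ⟨hT, hN⟩ := hcon
  set Γ : Set E3 := circ r0 0 ∪ circ r1 h with hΓ
  obtain ⟨τ, k, φ, c, hON, hqn, hc, hG⟩ := hGPH S q hreg hqS hrad hT hN
  obtain ⟨ε, hε, hε1, hC⟩ := hCRS c hc
  obtain ⟨ρ0, hρ0, hg⟩ := hG ε hε
  have hΓc : IsClosed Γ := (circ_closed r0 0).union (circ_closed r1 h)
  obtain ⟨r, hr, hball⟩ : ∃ r > 0, Metric.ball q r ⊆ Γᶜ :=
    Metric.isOpen_iff.mp hΓc.isOpen_compl q hqΓ
  set ρ : ℝ := min ρ0 (r / (2 * c + 2)) with hρdef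
  have hρ : 0 < ρ := lt_min hρ0 (by positivity)
  have hρr : (2 * c + 2) * ρ ≤ r := by
    have : ρ ≤ r / (2 * c + 2) := min_le_right _ _
    rw [le_div_iff₀ (by positivity)] at this
    linarith
  obtain ⟨g, hclo, hgS⟩ := hg ρ hρ (min_le_left _ _)
  set n : E3 := nv φ with hn
  obtain ⟨hcont, hout, hin, hfr, hmain⟩ := hPSH q τ n k c ρ hON hc hρ
  -- the box does not meet Γ
  have hbox : ∀ x : E3, |dt (x - q) τ| + |dt (x - q) n| < ρ →
      |dt (x - q) k| < (2 * c + 1) * ρ → x ∈ Metric.ball q r := by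
    intro x hx1 hx2
    rw [Metric.mem_ball, dist_eq_norm]
    have e := dist_box (p := q) hON (dt (x - q) τ) (dt (x - q) n) (dt (x - q) k)
    rw [← hfr x] at e
    have : (2 * c + 2) * ρ = ρ + (2 * c + 1) * ρ := by ring
    linarith
  -- the minimizer S'
  obtain ⟨hS'c, _, hCUT3⟩ := hCUT r0 r1 h φ h0 h1 hh S hMnz.1
  obtain ⟨hS'sp, hCUT4⟩ := hCUT3 𝒞 hHC hMnz.2.1
  have hfin : ar S < ⊤ := hFNT S Γ hMPS
  obtain ⟨hS'm, hS'ar⟩ := hCUT4 hMnz hfin
  set S' : Set E3 := cutr φ S with hS'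
  have hgS' : ∀ a v w : ℝ, |a| + |v| < ρ → |w| ≤ (2 * c + 1) * ρ →
      (fr q τ n k a v w ∈ S' ↔ w = g a |v|) := by
    intro a v w hav hw
    have ha := abs_nonneg a
    have hv := abs_nonneg v
    have e : fr q τ n k a v w ∈ S' ↔ fold φ (fr q τ n k a v w) ∈ S := Iff.rfl
    rw [e, fold_fr hON hqn]
    refine hgS a |v| w (by linarith) ?_ hw
    rw [abs_abs]; linarith
  obtain ⟨hS''eq, hG1⟩ := hmain ε g S' hε hε1 hclo hgS'
  obtain ⟨hlt, _⟩ := hC q τ n k ρ g hON hρ hclo
  set S'' : Set E3 := {x | push q τ n k c ρ 1 x ∈ S'} with hS''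
  have hpc : Continuous (fun x : E3 => push q τ n k c ρ 1 x) :=
    hcont.comp (by fun_prop : Continuous fun x : E3 => ((1 : ℝ), x))
  -- compactness
  have hS''cl : IsClosed S'' := hS'c.isClosed.preimage hpc
  have hS''b : Bornology.IsBounded S'' := by
    refine (hS'c.isBounded.union (Metric.isBounded_ball (x := q) (r := r))).subset ?_
    intro x hx
    by_cases hx1 : ρ ≤ |dt (x - q) τ| + |dt (x - q) n| ∨ (2 * c + 1) * ρ ≤ |dt (x - q) k|
    · left
      have := hout 1 x hx1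
      rw [hS'', mem_setOf_eq, this] at hx
      exact hx
    · right
      rw [not_or, not_le, not_le] at hx1
      exact hbox x hx1.1 hx1.2
  have hS''c : IsCompact S'' := Metric.isCompact_of_isClosed_isBounded hS''cl hS''b
  -- spanning
  have hS''sp : Spans 𝒞 S'' := by
    intro γ hγ
    have hLp := hHC.1 γ hγ
    obtain ⟨_, _, _, _, h5, _⟩ := hHTE Γ
    have hhot := h5 (fun z : unitInterval × E3 => push q τ n k c ρ (z.1 : ℝ) z.2) γ
      (hcont.comp (by fun_prop :
        Continuous fun z : unitInterval × E3 => ((z.1 : ℝ), z.2))) ?_ hLp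
    · have e0 : (fun s => push q τ n k c ρ ((0 : unitInterval) : ℝ) (γ s)) = γ := by
        funext s
        unfold push
        simp
      have hhot' : Hot Γ γ (fun s => push q τ n k c ρ 1 (γ s)) := by
        have := hhot
        simp only at this
        rw [e0] at this
        simpa using this
      obtain ⟨s, hs⟩ := hS'sp _ (hHC.2 γ hγ _ hhot')
      exact ⟨s, hs⟩
    · intro t x hx
      simp only
      by_cases hx1 : ρ ≤ |dt (x - q) τ| + |dt (x - q) n| ∨ (2 * c + 1) * ρ ≤ |dt (x - q) k|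
      · rw [hout _ x hx1]
        exact hx
      · rw [not_or, not_le, not_le] at hx1
        obtain ⟨e1, e2, e3⟩ := hin (t : ℝ) x t.2.1 t.2.2 hx1.1 hx1.2
        refine hball (hbox _ ?_ e3)
        rw [e1, e2]
        exact hx1.1
  have hmin : ar S' ≤ ar S'' := hS'm.2.2 S'' hS''c hS''sp
  -- areas
  set U : Set E3 := {x | |dt (x - q) τ| + |dt (x - q) n| < ρ ∧
      |dt (x - q) k| < (2 * c + 1) * ρ} with hU
  have hdt : ∀ y : E3, Continuous (fun x : E3 => dt (x - q) y) := by
    intro y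
    unfold dt
    fun_prop
  have hUo : IsOpen U :=
    (isOpen_lt ((hdt τ).abs.add (hdt n).abs) continuous_const).inter
      (isOpen_lt (hdt k).abs continuous_const)
  have hdiff : S' \ G1 q τ n k ρ g = S' \ U := by
    rw [hG1]
    ext x
    simp only [mem_diff, mem_inter_iff, not_and]
    constructor
    · rintro ⟨ha, hb⟩
      exact ⟨ha, hb ha⟩
    · rintro ⟨ha, hb⟩
      exact ⟨ha, fun _ => hb⟩
  have hsum : ar (G1 q τ n k ρ g) + ar (S' \ U) = ar S' := by
    rw [hG1]
    unfold ar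
    exact measure_inter_add_diff S' hUo.measurableSet
  have hne : ar (S' \ U) ≠ ⊤ := by
    have : ar (S' \ U) ≤ ar S' := measure_mono diff_subset
    rw [hS'ar] at this
    exact (lt_of_le_of_lt this hfin).ne
  have hle : ar S'' ≤ ar (S' \ U) + ar (G2 q τ n k c ρ g) := by
    rw [hS''eq, hdiff]
    exact measure_union_le _ _
  have hlt2 : ar (S' \ U) + ar (G2 q τ n k c ρ g) < ar (S' \ U) + ar (G1 q τ n k ρ g) :=
    (ENNReal.add_lt_add_iff_left hne).mpr hlt
  rw [add_comm (ar (S' \ U)) (ar (G1 q τ n k ρ g)), hsum] at hlt2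
  exact absurd (hmin.trans_lt (hle.trans_lt hlt2)) (lt_irrefl _)

end Pool.Agent.Helper70.MF
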